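import Mathlib
import Pool.Agent.Y144.MT.Cond

/-!
# Conditions on the conjugation action of the Galois group

`X` is the rational Tate module of an abelian variety over an algebraically closed field `K`
containing `ℚ_ℓ`, with the action `R` of the Galois group `Γ` and the cyclotomic character `χ`.
-/

set_option autoImplicit false

namespace Pool.Agent.T9h43.MT

open Module Pool.Agent.Y144.MT

noncomputable section

variable {K X Γ : Type} [Field K] [AddCommGroup X] [Module K X] [Group Γ]

/-- `B` is a nonzero alternating form on `U` on which a subgroup of finite index acts by `χ`. -/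
def IsSymplecticForm (R : Representation K Γ X) (χ : Γ →* K) (U : Submodule K X)
    (B : X →ₗ[K] X →ₗ[K] K) : Prop :=
  ∃ Δ : Subgroup Γ, Δ.FiniteIndex ∧ (∃ u ∈ U, ∃ v ∈ U, B u v ≠ 0) ∧ (∀ u ∈ U, B u u = 0) ∧
    ∀ g ∈ Δ, ∀ u ∈ U, ∀ v ∈ U, B (R g u) (R g v) = χ g * B u v

/-- Rank at most three, or less than a quarter of the dimension of `U` if this is not divisible by
four. -/
def IsSmall (U : Submodule K X) (r : ℕ) : Prop :=
  r ≤ 3 ∨ (¬4 ∣ finrank K U ∧ 4 * r < finrank K U)

/-- The linear combinations `E` of the operators in `G` which have rank at most `m` on `T` have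
images `E T` that span `T`. If `T` is semisimple this means (density theorem) that no irreducible
representation of `G` has multiplicity greater than `m` in `T`. -/
def HasMultiplicities (R : Representation K Γ X) (G : Subgroup Γ) (T : Submodule K X) (m : ℕ) :
    Prop :=
  T ≤ Submodule.span K {v | ∃ E ∈ Submodule.span K (R '' (G : Set Γ)),
    finrank K (T.map E) ≤ m ∧ v ∈ T.map E}

/-- `T` is an irreducible representation of `G`. -/
def IsIrreducible (R : Representation K Γ X) (G : Subgroup Γ) (T : Submodule K X) : Prop :=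
  T ≠ ⊥ ∧ ∀ W ≤ T, (∀ g ∈ G, ∀ w ∈ W, R g w ∈ W) → W = ⊥ ∨ W = T

/-- `U` is the direct sum of nonzero subspaces `T` and `Z` that are stable under a subgroup `G` of
`Γ` (an inertia group for instance) such that

* `G` acts on `Z` by scalars `ψ g`;
* the representation `T` of `G` is irreducible (`m = 1`) or has multiplicities at most `m`;
* an element `h` of `G` acts on `T` by a scalar `s` different from the scalar `ψ h` by which it acts
  on `Z`;
* `T` and `Z` are orthogonal for a symplectic form on `U` and `2 m` is small (in particular if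
  `m = 1`), or `s ≠ -ψ h` and either `m = 1` or `U` is symplectic and `m` is small. -/
def Splits (R : Representation K Γ X) (χ : Γ →* K) (U : Submodule K X) : Prop :=
  ∃ (G : Subgroup Γ) (T Z : Submodule K X) (ψ : Γ → K) (h : Γ) (s : K) (m : ℕ),
    (T ⊔ Z = U ∧ T ⊓ Z = ⊥ ∧ T ≠ ⊥ ∧ Z ≠ ⊥) ∧
    (∀ g ∈ G, ∀ t ∈ T, R g t ∈ T) ∧ (∀ g ∈ G, ∀ z ∈ Z, R g z = ψ g • z) ∧
    ((IsIrreducible R G T ∧ m = 1) ∨ HasMultiplicities R G T m) ∧
    (h ∈ G ∧ (∀ t ∈ T, R h t = s • t) ∧ s ≠ ψ h) ∧
    ((IsSmall U (2 * m) ∧ ∃ B, IsSymplecticForm R χ U B ∧ ∀ t ∈ T, ∀ z ∈ Z, B t z = 0) ∨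
      (s ≠ -ψ h ∧ (m = 1 ∨ (Pool.Agent.Y126.Notions.IsSymplectic R χ U ∧ IsSmall U m))))

/-- Some element of the group has on `U` a basis of eigenvectors `b i`, with eigenvalues `a i`, and
there is a nonempty proper subset `S` of the set of indices such that for `i` outside of `S` and
`j` in `S` the ratio `a i / a j` occurs at most `r` times as a ratio of eigenvalues. -/
def HasIsolatedRatios (R : Representation K Γ X) (U : Submodule K X) (r : ℕ) : Prop :=
  ∃ (γ : Γ) (n : ℕ) (b : Basis (Fin n) K U) (a : Fin n → Kˣ) (S : Set (Fin n)),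
    (∀ i, R γ (b i : X) = (a i : K) • (b i : X)) ∧ (∃ j, j ∈ S) ∧ (∃ i, i ∉ S) ∧
    ∀ i, i ∉ S → ∀ j ∈ S, coincidences a (a i / a j) ≤ r

/-- The linear combinations of the conjugates `g y g⁻¹` of the operator `y`. -/
def conjSpan (R : Representation K Γ X) (y : Module.End K X) : Submodule K (Module.End K X) :=
  Submodule.span K {x | ∃ g : Γ, x = R g * y * R g⁻¹}

/-- There is a subspace `Z` of `U`, different from `0` and from `U`, such that for every operator `y`
with `y Z` not contained in `Z`, all conjugates of which map `U` to `U` and have the property `P`,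
some linear combination of the conjugates of `y` has on `U` a rank between `1` and `r`. -/
def HasSmallCombinations (R : Representation K Γ X) (U : Submodule K X)
    (P : Module.End K X → Prop) (r : ℕ) : Prop :=
  ∃ Z ≤ U, Z ≠ ⊥ ∧ Z ≠ U ∧ ∀ y : Module.End K X,
    (∀ g : Γ, (∀ u ∈ U, (R g * y * R g⁻¹) u ∈ U) ∧ P (R g * y * R g⁻¹)) → (∃ z ∈ Z, y z ∉ Z) →
    ∃ x ∈ conjSpan R y, U.map x ≠ ⊥ ∧ finrank K (U.map x) ≤ r

/-- The condition on the conjugation action of the Galois group on the operators on `U`:

* `U` splits, or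
* some element of the group has isolated ratios of eigenvalues on `U` (`r = 1`; small `r` if `U` is
  symplectic), or
* more generally, conjugates have linear combinations of rank one on `U`, or `U` is symplectic
  and the conjugates of operators that are skew for a symplectic form have linear
  combinations of small rank. -/
def HasConjugates (R : Representation K Γ X) (χ : Γ →* K) (U : Submodule K X) : Prop :=
  Splits R χ U ∨
  (HasIsolatedRatios R U 1 ∨
    (Pool.Agent.Y126.Notions.IsSymplectic R χ U ∧ ∃ r, IsSmall U r ∧ HasIsolatedRatios R U r)) ∨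
  (HasSmallCombinations R U (fun _ => True) 1 ∨
    ∃ B r, IsSymplecticForm R χ U B ∧ IsSmall U r ∧
      HasSmallCombinations R U (fun y => ∀ u ∈ U, ∀ v ∈ U, B (y u) v + B u (y v) = 0) r)

end

end Pool.Agent.T9h43.MT
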