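import Mathlib
import Pool.Agent.R855.MT.One

/-!
# Elements of small rank in the Lie algebra
-/

set_option autoImplicit false
set_option linter.unusedSectionVars false

namespace Pool.Agent.T9h43.MT

open Module Pool.Agent.H204R3.SP Pool.Agent.H204R3.GP Pool.Agent.W522.U Pool.Agent.W529.Ta
open Pool.Agent.W528.Odd Pool.Agent.Y126.OT Pool.Agent.TH118.CR Pool.Agent.Y126.Toric
open Pool.Agent.W528.Tor (AltDual)

noncomputable section

variable {K : Type} [Field K] [CharZero K] [IsAlgClosed K] {X : Type} [AddCommGroup X] [Module K X]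
  [FiniteDimensional K X] {Γ : Type} [Group Γ] {R : Representation K Γ X} {χ : Γ →* K}
  (ω : X →ₗ[K] X →ₗ[K] K) (hnd : ∀ u, (∀ v, ω u v = 0) → u = 0)
  (hωR : ∀ g u v, ω (R g u) (R g v) = χ g * ω u v) (hss : HasProj R) {U : Submodule K X}
  (hU : SI R U)

include hnd hωR hss hU in
/-- A weak Hodge element that does not preserve a given subspace. -/
theorem exists_moving (hP : WeakHodgeGenerate R χ) {Z : Submodule K X} (hZU : Z ≤ U)
    (hZ0 : Z ≠ ⊥) (hZ : Z ≠ U) :
    ∃ x ∈ lieT R χ, x * x = (1 / 4 : K) • 1 ∧ ∃ z ∈ Z, x z ∉ Z := by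
  obtain ⟨Δ, hΔ, hUΔ⟩ := id hU.2.1
  by_contra hcon
  push Not at hcon
  have h3 := irr_weak ω hnd hωR hss hP hU Δ hΔ hUΔ (Z.comap U.subtype) (by
    rintro Y ⟨x₀, hx₀, hxx, hYx⟩ u hu
    rw [Submodule.mem_comap] at hu ⊢
    rw [Submodule.subtype_apply] at hu ⊢
    rw [hYx]
    exact hcon x₀ hx₀ hxx _ hu)
  rcases h3 with h3 | h3
  · apply hZ0
    rw [eq_bot_iff]
    intro z hz
    have h4 : (⟨z, hZU hz⟩ : U) ∈ Z.comap U.subtype := hz
    rw [h3, Submodule.mem_bot] at h4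
    rw [Submodule.mem_bot]
    exact congrArg Subtype.val h4
  · apply hZ
    refine le_antisymm hZU fun u hu => ?_
    have h4 : (⟨u, hu⟩ : U) ∈ Z.comap U.subtype := by rw [h3]; trivial
    exact h4

include hnd hωR hss hU in
/-- A nonzero element of the Lie algebra on `U` which is not a scalar does not commute with some weak
Hodge element; its component is a square-zero element of at most the same rank. -/
theorem exists_sq (hP : WeakHodgeGenerate R χ) {x : Module.End K X} (hx : x ∈ lieT R χ)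
    (hns : ¬∃ c : K, ∀ u ∈ U, x u = c • u) :
    ∃ N ∈ lieT R χ, N * N = 0 ∧ U.map N ≠ ⊥ ∧ finrank K (U.map N) ≤ finrank K (U.map x) := by
  obtain ⟨Δ, hΔ, hUΔ⟩ := id hU.2.1
  have hbr : ∀ A ∈ lieT R χ, ∀ B ∈ lieT R χ, A * B - B * A ∈ lieT R χ :=
    fun _ h _ h' => lieT_bracket R χ h h'
  have hst : ∀ {y : Module.End K X}, y ∈ lieT R χ → ∀ u ∈ U, y u ∈ U := fun hy =>
    lieT_stable ω hnd hωR hss hU.2.1 hy
  obtain ⟨Y, hY⟩ : ∃ Y : Module.End K U, Y = x.restrict (hst hx) := ⟨_, rfl⟩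
  have hYx : ∀ u : U, ((Y u : U) : X) = x u := fun u => by rw [hY]; rfl
  have hnt : Nontrivial U := by
    obtain ⟨u, hu, hu0⟩ := Submodule.exists_mem_ne_zero_of_ne_bot hU.1
    exact ⟨⟨u, hu⟩, 0, fun h => hu0 (congrArg Subtype.val h)⟩
  -- a weak Hodge element that does not commute with it
  obtain ⟨w, hw, hww, W, hWw, hWY⟩ : ∃ w ∈ lieT R χ, w * w = (1 / 4 : K) • 1 ∧
      ∃ W : Module.End K U, (∀ u : U, ((W u : U) : X) = w u) ∧ W * Y ≠ Y * W := by
    by_contra hcon
    push Not at hcon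
    obtain ⟨c, hc⟩ := Module.End.exists_eigenvalue Y
    have h3 := irr_weak ω hnd hωR hss hP hU Δ hΔ hUΔ (Y.eigenspace c) (by
      rintro W ⟨w, hw, hww, hWw⟩ u hu
      rw [Module.End.mem_eigenspace_iff] at hu ⊢
      have h4 := hcon w hw hww W hWw
      rw [← Module.End.mul_apply, ← h4, Module.End.mul_apply, hu, map_smul])
    rcases h3 with h3 | h3
    · exact hc h3
    · apply hns
      refine ⟨c, fun u hu => ?_⟩
      have h4 : (⟨u, hu⟩ : U) ∈ Y.eigenspace c := by rw [h3]; trivial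
      rw [Module.End.mem_eigenspace_iff] at h4
      have h5 := congrArg Subtype.val h4
      rw [hYx] at h5
      exact h5
  have hsq : ∀ p q : Module.End K X, q * p = 0 → p * x * q * (p * x * q) = 0 := by
    intro p q hpq
    calc p * x * q * (p * x * q) = p * x * (q * p) * x * q := by noncomm_ring
    _ = 0 := by rw [hpq, mul_zero, zero_mul, zero_mul]
  -- the ranks
  have hrank : ∀ p q : Module.End K X, (∀ u ∈ U, p u ∈ U) → (∀ u ∈ U, q u ∈ U) →
      finrank K (U.map (p * x * q)) ≤ finrank K (U.map x) := by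
    intro p q hp hq
    have h1 : ∀ u : U, (((p.restrict hp * Y * q.restrict hq) u : U) : X) = (p * x * q) u := by
      intro u
      rw [Module.End.mul_apply, Module.End.mul_apply]
      change p ((Y (q.restrict hq u) : U) : X) = _
      rw [hYx]
      rfl
    rw [← rk_res h1, ← rk_res hYx]
    exact (rk_mul_left _ _).trans (rk_mul_right _ _)
  have he1 : ∀ u ∈ U, e1 w u ∈ U := by
    intro u hu
    unfold e1
    rw [LinearMap.add_apply, LinearMap.smul_apply, Module.End.one_apply]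
    exact U.add_mem (U.smul_mem _ hu) (hst hw u hu)
  have he0 : ∀ u ∈ U, e0 w u ∈ U := by
    intro u hu
    unfold e0
    rw [LinearMap.sub_apply, LinearMap.smul_apply, Module.End.one_apply]
    exact U.sub_mem (U.smul_mem _ hu) (hst hw u hu)
  by_contra hcon
  push Not at hcon
  have h3 : U.map (yp w x) = ⊥ := by
    by_contra h0
    exact absurd (hrank _ _ he1 he0)
      (not_le.2 (hcon _ (yp_mem hww hbr hw hx) (hsq _ _ (e0_mul_e1 hww)) h0))
  have h4 : U.map (ym w x) = ⊥ := by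
    by_contra h0
    exact absurd (hrank _ _ he0 he1)
      (not_le.2 (hcon _ (ym_mem hww hbr hw hx) (hsq _ _ (e1_mul_e0 hww)) h0))
  apply hWY
  refine LinearMap.ext fun u => Subtype.ext ?_
  rw [Module.End.mul_apply, Module.End.mul_apply, hWw, hYx, hYx, hWw]
  have h5 : yp w x u = 0 := by
    have : yp w x u ∈ U.map (yp w x) := Submodule.mem_map_of_mem u.2
    rwa [h3, Submodule.mem_bot] at this
  have h6 : ym w x u = 0 := by
    have : ym w x u ∈ U.map (ym w x) := Submodule.mem_map_of_mem u.2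
    rwa [h4, Submodule.mem_bot] at this
  have h7 : (w * x - x * w) u = (yp w x - ym w x) u := LinearMap.congr_fun (br_eq hww) _
  rw [LinearMap.sub_apply, LinearMap.sub_apply, h5, h6, sub_zero, sub_eq_zero] at h7
  exact h7

include hnd hωR hss hU in
/-- **Rank one.** -/
theorem one_of_le_one (hP : WeakHodgeGenerate R χ) {x : Module.End K X} (hx : x ∈ lieT R χ)
    (hx0 : U.map x ≠ ⊥) (h2 : 2 ≤ finrank K U) (h1 : finrank K (U.map x) ≤ 1) :
    ∃ e ∈ lieT R χ, e * e = 0 ∧ finrank K (U.map e) = 1 := by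
  obtain ⟨N, hN, hN2, hN0, hNr⟩ := exists_sq ω hnd hωR hss hU hP hx (by
    rintro ⟨c, hc⟩
    by_cases hc0 : c = 0
    · apply hx0
      rw [eq_bot_iff]
      rintro _ ⟨u, hu, rfl⟩
      rw [hc u hu, hc0, zero_smul]
      exact Submodule.zero_mem _
    · have h3 : U ≤ U.map x := by
        intro u hu
        refine ⟨c⁻¹ • u, U.smul_mem _ hu, ?_⟩
        rw [map_smul, hc u hu, smul_smul, inv_mul_cancel₀ hc0, one_smul]
      have := Submodule.finrank_mono h3
      omega)
  refine ⟨N, hN, hN2, le_antisymm (hNr.trans h1) ?_⟩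
  exact Submodule.one_le_finrank_iff.2 hN0

include hnd hωR hss hU in
/-- **Small rank**, symplectic case. -/
theorem one_of_small (hP : WeakHodgeGenerate R χ) (halt : AltDual R χ U) {x : Module.End K X}
    (hx : x ∈ lieT R χ) (hx0 : U.map x ≠ ⊥) (h3 : finrank K (U.map x) ≤ 3 ∨
      (¬4 ∣ finrank K U ∧ 4 * finrank K (U.map x) < finrank K U)) :
    ∃ e ∈ lieT R χ, e * e = 0 ∧ finrank K (U.map e) = 1 := by
  have hst : ∀ {y : Module.End K X}, y ∈ lieT R χ → ∀ u ∈ U, y u ∈ U := fun hy =>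
    lieT_stable ω hnd hωR hss hU.2.1 hy
  obtain ⟨Δ₁, hΔ₁, hUΔ₁⟩ := id hU.2.1
  obtain ⟨Δ₂, hΔ₂, B, hB0, hBalt, hB⟩ := id halt
  obtain ⟨Δ, hΔd⟩ : ∃ Δ, Δ = Δ₁ ⊓ Δ₂ := ⟨_, rfl⟩
  have hΔ : Δ.FiniteIndex := by rw [hΔd]; infer_instance
  have hUΔ : ∀ g ∈ Δ, ∀ u ∈ U, R g u ∈ U := fun g hg => hUΔ₁ g (by rw [hΔd] at hg; exact hg.1)
  have hBΔ : ∀ g ∈ Δ, ∀ u ∈ U, ∀ v ∈ U, B (R g u) (R g v) = χ g * B u v :=
    fun g hg => hB g (by rw [hΔd] at hg; exact hg.2)
  have hskew := fun {y : Module.End K X} (hy : y ∈ lieT R χ) =>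
    lieT_skew ω hnd hωR hss hU.2.1 hΔ B hBΔ hy
  have hns : ¬∃ c : K, ∀ u ∈ U, x u = c • u := by
    rintro ⟨c, hc⟩
    by_cases hc0 : c = 0
    · apply hx0
      rw [eq_bot_iff]
      rintro _ ⟨u, hu, rfl⟩
      rw [hc u hu, hc0, zero_smul]
      exact Submodule.zero_mem _
    · obtain ⟨u, hu, v, hv, h0⟩ := hB0
      have h4 := hskew hx u hu v hv
      rw [hc u hu, hc v hv, map_smul, map_smul, LinearMap.smul_apply, smul_eq_mul] at h4
      have h5 : (2 * c) * B u v = 0 := by linear_combination h4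
      rcases mul_eq_zero.1 h5 with h6 | h6
      · exact hc0 ((mul_eq_zero.1 h6).resolve_left two_ne_zero)
      · exact h0 h6
  rcases h3 with h3 | ⟨h4, h3⟩
  · obtain ⟨N, hN, hN2, hN0, hNr⟩ := exists_sq ω hnd hωR hss hU hP hx hns
    have h1 : 1 ≤ finrank K (U.map N) := Submodule.one_le_finrank_iff.2 hN0
    obtain ⟨n, hnN⟩ : ∃ n : Module.End K U, n = N.restrict (hst hN) := ⟨_, rfl⟩
    have hnx : ∀ u : U, ((n u : U) : X) = N u := fun u => by rw [hnN]; rfl
    refine one_of_alt_gen ω hnd hωR hss hU halt hN hN2 hN0 (n := n) ⟨N, hN, hnx⟩ ?_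
      (rk_res hnx) (by omega) ?_
    · have h5 := sq_res hnx 0 (by rw [hN2, zero_smul])
      rw [h5, zero_smul]
    · have h6 : finrank K (U.map N) = 1 ∨ finrank K (U.map N) = 2 ∨ finrank K (U.map N) = 3 := by
        omega
      rcases h6 with h6 | h6 | h6
      · exact Or.inr (Or.inl ⟨by rw [h6]; decide, hP⟩)
      · exact Or.inl h6
      · exact Or.inr (Or.inl ⟨by rw [h6]; decide, hP⟩)
  · refine Pool.Agent.Y126.JP.one_of_res ω hnd hωR hss hU halt hP ?_
    obtain ⟨om, hom⟩ : ∃ om : U →ₗ[K] U →ₗ[K] K, om = B.compl₁₂ U.subtype U.subtype := ⟨_, rfl⟩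
    have hom' : ∀ u v : U, om u v = B u v := fun u v => by rw [hom]; rfl
    have halt' : ∀ v, om v v = 0 := fun v => by rw [hom']; exact hBalt v v.2
    have hndl : ∀ u, (∀ v, om u v = 0) → u = 0 := by
      intro u hu
      apply Subtype.ext
      exact du_left hU hU.2.1 hΔ hB0 hBΔ u u.2 (fun v hv => by
        have := hu ⟨v, hv⟩
        rwa [hom'] at this)
    have hanti := alt_anti halt'
    have hndr : ∀ u, (∀ v, om v u = 0) → u = 0 := fun u hu => hndl u fun v => by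
      rw [hanti, hu, neg_zero]
    have hsp : ∀ Y ∈ resL R χ U, ∀ u w, om (Y u) w + om u (Y w) = 0 := by
      rintro Y ⟨y, hy, hYy⟩ u w
      rw [hom', hom', hYy, hYy]
      exact hskew hy u u.2 w w.2
    have hirr : ∀ W : Submodule K U, (∀ Y ∈ resL R χ U, Y * Y = (1 / 4 : K) • 1 →
        ∀ u ∈ W, Y u ∈ W) → W = ⊥ ∨ W = ⊤ := fun W hW =>
      irr_weak ω hnd hωR hss hP hU Δ hΔ hUΔ W (by
        rintro Y ⟨x₀, hx₀, hxx, hYx⟩
        exact hW Y ⟨x₀, hx₀, hYx⟩ (sq_res hYx _ hxx))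
    obtain ⟨Y, hY⟩ : ∃ Y : Module.End K U, Y = x.restrict (hst hx) := ⟨_, rfl⟩
    have hYx : ∀ u : U, ((Y u : U) : X) = x u := fun u => by rw [hY]; rfl
    have hY0 : Y ≠ 0 := by
      intro h0
      apply hns
      refine ⟨0, fun u hu => ?_⟩
      have h5 := hYx ⟨u, hu⟩
      rw [h0] at h5
      rw [zero_smul]
      exact h5.symm
    have hset := Pool.Agent.Y126.JP.setup resL_br hsp hirr hndl hndr
    have hscal := Pool.Agent.Y126.JP.scal hirr
    refine Pool.Agent.Y126.JP.exists_rank_one_small resL_br hsp hirr halt' hndl hndr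
      (fun D hD hD2 => Pool.Agent.Y126.JP.simple_of_four hset hscal h4 hD hD2) (z := Y)
      ⟨x, hx, hYx⟩ hY0 (Or.inl ?_)
    have h5 : finrank K (LinearMap.range Y) = finrank K (U.map x) := rk_res hYx
    change 4 * finrank K (LinearMap.range Y) < finrank K U
    rw [h5]
    exact h3

end

end Pool.Agent.T9h43.MT
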