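import Mathlib
import Pool.Agent.T9h43.MT.Defs
import Pool.Agent.T9h43.MT.Small

/-!
# Combinations of conjugates of small rank
-/

set_option autoImplicit false
set_option linter.unusedSectionVars false

namespace Pool.Agent.T9h43.MT

open Module Pool.Agent.H204R3.SP Pool.Agent.H204R3.GP Pool.Agent.W522.U Pool.Agent.W529.Ta
open Pool.Agent.W528.Odd Pool.Agent.Y126.OT Pool.Agent.TH118.CR Pool.Agent.Y126.Toric
open Pool.Agent.W528.Tor (AltDual)

noncomputable section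

variable {K : Type} [Field K] {X : Type} [AddCommGroup X] [Module K X]
  {Γ : Type} [Group Γ] {R : Representation K Γ X} {χ : Γ →* K}

theorem conjSpan_conj {y : Module.End K X} (g : Γ) {x : Module.End K X} (hx : x ∈ conjSpan R y) :
    R g * x * R g⁻¹ ∈ conjSpan R y := by
  induction hx using Submodule.span_induction with
  | mem x hx =>
    obtain ⟨k, rfl⟩ := hx
    refine Submodule.subset_span ⟨g * k, ?_⟩
    rw [mul_inv_rev, map_mul, map_mul]
    noncomm_ring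
  | zero => rw [mul_zero, zero_mul]; exact Submodule.zero_mem _
  | add a b _ _ ha hb => rw [mul_add, add_mul]; exact Submodule.add_mem _ ha hb
  | smul c a _ ha => rw [mul_smul_comm, smul_mul_assoc]; exact Submodule.smul_mem _ c ha

theorem mem_conjSpan (y : Module.End K X) : y ∈ conjSpan R y :=
  Submodule.subset_span ⟨1, by rw [inv_one, map_one, one_mul, mul_one]⟩

theorem conjSpan_le {y : Module.End K X} {L : Submodule K (Module.End K X)} (hy : y ∈ L)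
    (hL : ∀ g : Γ, ∀ x ∈ L, R g * x * R g⁻¹ ∈ L) : conjSpan R y ≤ L := by
  unfold conjSpan
  rw [Submodule.span_le]
  rintro x ⟨g, rfl⟩
  exact hL g y hy

theorem conjSpan_stable {U : Submodule K X} {y : Module.End K X}
    (h : ∀ g : Γ, ∀ u ∈ U, (R g * y * R g⁻¹) u ∈ U) {x : Module.End K X}
    (hx : x ∈ conjSpan R y) : ∀ u ∈ U, x u ∈ U := by
  induction hx using Submodule.span_induction with
  | mem x hx =>
    obtain ⟨k, rfl⟩ := hx
    exact h k
  | zero => exact fun u _ => U.zero_mem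
  | add a b _ _ ha hb => exact fun u hu => U.add_mem (ha u hu) (hb u hu)
  | smul c a _ ha => exact fun u hu => U.smul_mem c (ha u hu)

theorem conjSpan_skew {U : Submodule K X} {B : X →ₗ[K] X →ₗ[K] K} {y : Module.End K X}
    (h : ∀ g : Γ, ∀ u ∈ U, ∀ v ∈ U, B ((R g * y * R g⁻¹) u) v + B u ((R g * y * R g⁻¹) v) = 0)
    {x : Module.End K X} (hx : x ∈ conjSpan R y) :
    ∀ u ∈ U, ∀ v ∈ U, B (x u) v + B u (x v) = 0 := by
  induction hx using Submodule.span_induction with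
  | mem x hx =>
    obtain ⟨k, rfl⟩ := hx
    exact h k
  | zero =>
    intro u _ v _
    rw [LinearMap.zero_apply, LinearMap.zero_apply, map_zero, map_zero, LinearMap.zero_apply,
      add_zero]
  | add a b _ _ ha hb =>
    intro u hu v hv
    rw [LinearMap.add_apply, LinearMap.add_apply, map_add, map_add, LinearMap.add_apply]
    linear_combination ha u hu v hv + hb u hu v hv
  | smul c a _ ha =>
    intro u hu v hv
    rw [LinearMap.smul_apply, LinearMap.smul_apply, map_smul, map_smul, LinearMap.smul_apply,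
      smul_eq_mul, smul_eq_mul]
    linear_combination c * ha u hu v hv

/-! ### Splittings -/

section split

variable {G : Subgroup Γ} {T Z : Submodule K X} {ψ : Γ → K}
  (hT : ∀ g ∈ G, ∀ t ∈ T, R g t ∈ T) (hZ : ∀ g ∈ G, ∀ z ∈ Z, R g z = ψ g • z)
  (hψ : ∀ g ∈ G, ψ g ≠ 0)

include hZ hψ in
theorem inv_Z {g : Γ} (hg : g ∈ G) {z : X} (hz : z ∈ Z) : R g⁻¹ z = (ψ g)⁻¹ • z := by
  have h1 : z = (ψ g)⁻¹ • R g z := by rw [hZ g hg z hz, smul_smul, inv_mul_cancel₀ (hψ g hg), one_smul]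
  conv_lhs => rw [h1]
  rw [map_smul, Rinv]

include hT hZ hψ in
/-- Composition with a linear combination of the operators in `G`. -/
theorem exists_twist {C : Submodule K (Module.End K X)}
    (hC : ∀ g : Γ, ∀ x ∈ C, R g * x * R g⁻¹ ∈ C) {x : Module.End K X} (hx : x ∈ C)
    (hxT : ∀ t ∈ T, x t ∈ Z) (hxZ : ∀ z ∈ Z, x z ∈ T) {E : Module.End K X}
    (hE : E ∈ Submodule.span K (R '' (G : Set Γ))) :
    ∃ x' ∈ C, (∀ t ∈ T, x' t = x (E t)) ∧ (∀ z ∈ Z, x' z ∈ T) ∧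
      ((∀ z ∈ Z, x z = 0) → ∀ z ∈ Z, x' z = 0) ∧ ∀ t ∈ T, E t ∈ T := by
  induction hE using Submodule.span_induction with
  | mem E hE =>
    obtain ⟨g, hg, rfl⟩ := hE
    rw [SetLike.mem_coe] at hg
    refine ⟨ψ g • (R g⁻¹ * x * R g⁻¹⁻¹), C.smul_mem _ (hC g⁻¹ x hx), ?_, ?_, ?_, hT g hg⟩
    · intro t ht
      rw [inv_inv, LinearMap.smul_apply, Module.End.mul_apply, Module.End.mul_apply,
        inv_Z hZ hψ hg (hxT _ (hT g hg t ht)), smul_smul, mul_inv_cancel₀ (hψ g hg), one_smul]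
    · intro z hz
      rw [inv_inv, LinearMap.smul_apply, Module.End.mul_apply, Module.End.mul_apply, hZ g hg z hz,
        map_smul, map_smul]
      exact T.smul_mem _ (T.smul_mem _ (hT _ (G.inv_mem hg) _ (hxZ z hz)))
    · intro h0 z hz
      rw [inv_inv, LinearMap.smul_apply, Module.End.mul_apply, Module.End.mul_apply, hZ g hg z hz,
        map_smul, h0 z hz, smul_zero, map_zero, smul_zero]
  | zero =>
    refine ⟨0, C.zero_mem, fun t _ => ?_, fun z _ => T.zero_mem, fun _ z _ => rfl,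
      fun t _ => T.zero_mem⟩
    exact (map_zero x).symm
  | add E E' _ _ ih ih' =>
    obtain ⟨a, ha, ha1, ha2, ha3, ha4⟩ := ih
    obtain ⟨b, hb, hb1, hb2, hb3, hb4⟩ := ih'
    refine ⟨a + b, C.add_mem ha hb, fun t ht => ?_, fun z hz => T.add_mem (ha2 z hz) (hb2 z hz),
      fun h0 z hz => ?_, fun t ht => T.add_mem (ha4 t ht) (hb4 t ht)⟩
    · rw [LinearMap.add_apply, LinearMap.add_apply, map_add, ha1 t ht, hb1 t ht]
    · rw [LinearMap.add_apply, ha3 h0 z hz, hb3 h0 z hz, add_zero]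
  | smul c E _ ih =>
    obtain ⟨a, ha, ha1, ha2, ha3, ha4⟩ := ih
    refine ⟨c • a, C.smul_mem _ ha, fun t ht => ?_, fun z hz => T.smul_mem _ (ha2 z hz),
      fun h0 z hz => ?_, fun t ht => T.smul_mem _ (ha4 t ht)⟩
    · rw [LinearMap.smul_apply, LinearMap.smul_apply, map_smul, ha1 t ht]
    · rw [LinearMap.smul_apply, ha3 h0 z hz, smul_zero]

include hZ hψ in
/-- The off-diagonal part. -/
theorem exists_off {C : Submodule K (Module.End K X)}
    (hC : ∀ g : Γ, ∀ x ∈ C, R g * x * R g⁻¹ ∈ C) {y : Module.End K X} (hy : y ∈ C)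
    (hyU : ∀ u ∈ T ⊔ Z, y u ∈ T ⊔ Z) {t₀ : X} (ht₀ : t₀ ∈ T) (hyt : y t₀ ∉ T) {h : Γ} (hh : h ∈ G)
    {s : K} (hs : ∀ t ∈ T, R h t = s • t) (hsψ : s ≠ ψ h) (hs0 : s ≠ 0) :
    ∃ x ∈ C, (∀ t ∈ T, x t ∈ Z) ∧ (∀ z ∈ Z, x z ∈ T) ∧ x t₀ ≠ 0 ∧
      (s ≠ -ψ h → ∀ z ∈ Z, x z = 0) := by
  have hψ0 := hψ h hh
  have hsi : ∀ t ∈ T, R h⁻¹ t = s⁻¹ • t := by
    intro t ht
    have h1 : t = s⁻¹ • R h t := by rw [hs t ht, smul_smul, inv_mul_cancel₀ hs0, one_smul]
    conv_lhs => rw [h1]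
    rw [map_smul, Rinv]
  obtain ⟨x₁, hx₁d⟩ : ∃ x₁, x₁ = R h * y * R h⁻¹ - y := ⟨_, rfl⟩
  have hx₁C : x₁ ∈ C := by rw [hx₁d]; exact C.sub_mem (hC h y hy) hy
  have h1T : ∀ t ∈ T, ∃ τ ∈ T, ∃ ζ ∈ Z, y t = τ + ζ ∧ x₁ t = (s⁻¹ * ψ h - 1) • ζ := by
    intro t ht
    obtain ⟨τ, hτ, ζ, hζ, h1⟩ := Submodule.mem_sup.1 (hyU t (Submodule.mem_sup_left ht))
    refine ⟨τ, hτ, ζ, hζ, h1.symm, ?_⟩
    rw [hx₁d, LinearMap.sub_apply, Module.End.mul_apply, Module.End.mul_apply, hsi t ht, map_smul,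
      map_smul, ← h1, map_add, hs τ hτ, hZ h hh ζ hζ, smul_add, smul_smul, smul_smul,
      inv_mul_cancel₀ hs0, one_smul, sub_smul, one_smul]
    abel
  have h1Z : ∀ z ∈ Z, ∃ τ ∈ T, x₁ z = ((ψ h)⁻¹ * s - 1) • τ := by
    intro z hz
    obtain ⟨τ, hτ, ζ, hζ, h1⟩ := Submodule.mem_sup.1 (hyU z (Submodule.mem_sup_right hz))
    refine ⟨τ, hτ, ?_⟩
    rw [hx₁d, LinearMap.sub_apply, Module.End.mul_apply, Module.End.mul_apply,
      inv_Z hZ hψ hh hz, map_smul, map_smul, ← h1, map_add, hs τ hτ, hZ h hh ζ hζ, smul_add,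
      smul_smul, smul_smul, inv_mul_cancel₀ hψ0, one_smul, sub_smul, one_smul]
    abel
  have hc1 : s⁻¹ * ψ h - 1 ≠ 0 := by
    intro h0
    apply hsψ
    have h1 : s * (s⁻¹ * ψ h - 1) = 0 := by rw [h0, mul_zero]
    rw [mul_sub, ← mul_assoc, mul_inv_cancel₀ hs0, one_mul, mul_one, sub_eq_zero] at h1
    exact h1.symm
  have hx₁t : x₁ t₀ ≠ 0 := by
    obtain ⟨τ, hτ, ζ, hζ, h1, h2⟩ := h1T t₀ ht₀
    rw [h2]
    refine smul_ne_zero hc1 ?_
    rintro rfl
    apply hyt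
    rw [h1, add_zero]
    exact hτ
  have hx₁T : ∀ t ∈ T, x₁ t ∈ Z := by
    intro t ht
    obtain ⟨τ, hτ, ζ, hζ, h1, h2⟩ := h1T t ht
    rw [h2]
    exact Z.smul_mem _ hζ
  have hx₁Z : ∀ z ∈ Z, x₁ z ∈ T := by
    intro z hz
    obtain ⟨τ, hτ, h2⟩ := h1Z z hz
    rw [h2]
    exact T.smul_mem _ hτ
  by_cases hsm : s = -ψ h
  · exact ⟨x₁, hx₁C, hx₁T, hx₁Z, hx₁t, fun h0 => absurd hsm h0⟩
  · obtain ⟨x₂, hx₂d⟩ : ∃ x₂, x₂ = R h * x₁ * R h⁻¹ - ((ψ h)⁻¹ * s) • x₁ := ⟨_, rfl⟩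
    have h2T : ∀ t ∈ T, x₂ t = (s⁻¹ * ψ h - (ψ h)⁻¹ * s) • x₁ t := by
      intro t ht
      rw [hx₂d, LinearMap.sub_apply, Module.End.mul_apply, Module.End.mul_apply, hsi t ht,
        map_smul, map_smul, hZ h hh _ (hx₁T t ht), LinearMap.smul_apply, smul_smul, sub_smul]
    have h2Z : ∀ z ∈ Z, x₂ z = 0 := by
      intro z hz
      rw [hx₂d, LinearMap.sub_apply, Module.End.mul_apply, Module.End.mul_apply,
        inv_Z hZ hψ hh hz, map_smul, map_smul, hs _ (hx₁Z z hz), LinearMap.smul_apply, smul_smul,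
        sub_self]
    refine ⟨x₂, ?_, fun t ht => ?_, fun z hz => ?_, ?_, fun _ => h2Z⟩
    · rw [hx₂d]
      exact C.sub_mem (hC h _ hx₁C) (C.smul_mem _ hx₁C)
    · rw [h2T t ht]
      exact Z.smul_mem _ (hx₁T t ht)
    · rw [h2Z z hz]
      exact T.zero_mem
    · rw [h2T t₀ ht₀]
      refine smul_ne_zero ?_ hx₁t
      intro h0
      have h1 : (ψ h - s) * (ψ h + s) = 0 := by
        have h3 : s * ψ h * (s⁻¹ * ψ h - (ψ h)⁻¹ * s) = 0 := by rw [h0, mul_zero]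
        field_simp at h3
        linear_combination h3
      rcases mul_eq_zero.1 h1 with h2 | h2
      · exact hsψ (sub_eq_zero.1 h2).symm
      · exact hsm (by linear_combination h2)

end split

end

end Pool.Agent.T9h43.MT
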