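import Mathlib
import Pool.Agent.T9h43.MT.Comb

/-!
# Irreducible representations are multiplicity free, splittings and isolated ratios
-/

set_option autoImplicit false
set_option linter.unusedSectionVars false

namespace Pool.Agent.T9h43.MT

open Module Pool.Agent.H204R3.SP Pool.Agent.H204R3.GP Pool.Agent.W522.U Pool.Agent.W529.Ta
open Pool.Agent.W528.Odd Pool.Agent.Y126.OT Pool.Agent.TH118.CR Pool.Agent.Y126.Toric
open Pool.Agent.W528.Tor (AltDual)

noncomputable section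

variable {K : Type} [Field K] {X : Type} [AddCommGroup X] [Module K X]
  {Γ : Type} [Group Γ] {R : Representation K Γ X} {χ : Γ →* K}

/-- The restrictions to `T` of the members of a space of operators. -/
def resS (C : Submodule K (Module.End K X)) (T : Submodule K X) :
    Submodule K (Module.End K T) where
  carrier := {F | ∃ E ∈ C, ∀ t : T, ((F t : T) : X) = E t}
  add_mem' := by
    rintro F F' ⟨E, hE, h⟩ ⟨E', hE', h'⟩
    refine ⟨E + E', C.add_mem hE hE', fun t => ?_⟩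
    rw [LinearMap.add_apply, LinearMap.add_apply, Submodule.coe_add, h, h']
  zero_mem' := ⟨0, C.zero_mem, fun _ => rfl⟩
  smul_mem' := by
    rintro c F ⟨E, hE, h⟩
    refine ⟨c • E, C.smul_mem c hE, fun t => ?_⟩
    rw [LinearMap.smul_apply, LinearMap.smul_apply, Submodule.coe_smul, h]

theorem mem_resS {C : Submodule K (Module.End K X)} {T : Submodule K X} {F : Module.End K T} :
    F ∈ resS C T ↔ ∃ E ∈ C, ∀ t : T, ((F t : T) : X) = E t := Iff.rfl

section irr

variable {G : Subgroup Γ} {T : Submodule K X}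

theorem span_mul {E E' : Module.End K X}
    (hE : E ∈ Submodule.span K (R '' (G : Set Γ)))
    (hE' : E' ∈ Submodule.span K (R '' (G : Set Γ))) :
    E * E' ∈ Submodule.span K (R '' (G : Set Γ)) := by
  have h1 := Submodule.mul_mem_mul hE hE'
  rw [Submodule.span_mul_span] at h1
  refine Submodule.span_mono ?_ h1
  rintro _ ⟨_, ⟨g, hg, rfl⟩, _, ⟨g', hg', rfl⟩, rfl⟩
  exact ⟨g * g', G.mul_mem hg hg', map_mul _ _ _⟩

theorem span_T (hT : ∀ g ∈ G, ∀ t ∈ T, R g t ∈ T)
    {E : Module.End K X} (hE : E ∈ Submodule.span K (R '' (G : Set Γ))) : ∀ t ∈ T, E t ∈ T := by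
  induction hE using Submodule.span_induction with
  | mem E hE =>
    obtain ⟨g, hg, rfl⟩ := hE
    exact hT g hg
  | zero => exact fun t _ => T.zero_mem
  | add E E' _ _ ih ih' => exact fun t ht => T.add_mem (ih t ht) (ih' t ht)
  | smul c E _ ih => exact fun t ht => T.smul_mem c (ih t ht)

theorem one_mem_span : (1 : Module.End K X) ∈ Submodule.span K (R '' (G : Set Γ)) :=
  Submodule.subset_span ⟨1, G.one_mem, map_one _⟩

theorem irr_span (hT : ∀ g ∈ G, ∀ t ∈ T, R g t ∈ T)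
    (h : IsIrreducible R G T) {t : X} (ht : t ∈ T) (ht0 : t ≠ 0) {u : X} (hu : u ∈ T) :
    ∃ E ∈ Submodule.span K (R '' (G : Set Γ)), E t = u := by
  obtain ⟨W, hW⟩ : ∃ W : Submodule K X,
    W = (Submodule.span K (R '' (G : Set Γ))).map (LinearMap.applyₗ t) := ⟨_, rfl⟩
  have hmem : ∀ v, v ∈ W ↔ ∃ E ∈ Submodule.span K (R '' (G : Set Γ)), E t = v := by
    intro v
    rw [hW, Submodule.mem_map]
    rfl
  have hWT : W ≤ T := by
    intro v hv
    obtain ⟨E, hE, rfl⟩ := (hmem v).1 hv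
    exact span_T hT hE t ht
  rcases h.2 W hWT (by
    intro g hg w hw
    obtain ⟨E, hE, rfl⟩ := (hmem w).1 hw
    rw [hmem]
    exact ⟨R g * E, span_mul (Submodule.subset_span ⟨g, hg, rfl⟩) hE, rfl⟩) with h1 | h1
  · exfalso
    apply ht0
    have h2 : t ∈ W := (hmem t).2 ⟨1, one_mem_span, rfl⟩
    rwa [h1, Submodule.mem_bot] at h2
  · rw [← h1] at hu
    exact (hmem u).1 hu

/-- **Burnside's theorem**: irreducible representations have multiplicity one. -/
theorem multFree [CharZero K] [IsAlgClosed K] [FiniteDimensional K X] (hT : ∀ g ∈ G, ∀ t ∈ T, R g t ∈ T)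
    (h : IsIrreducible R G T) : HasMultiplicities R G T 1 := by
  obtain ⟨t, ht, ht0⟩ := Submodule.exists_mem_ne_zero_of_ne_bot h.1
  -- an element of minimal rank
  obtain ⟨e, he, he0, hmin⟩ := exists_min_rk (resS (Submodule.span K (R '' (G : Set Γ))) T)
    ⟨1, ⟨1, one_mem_span, fun t => rfl⟩, fun h0 => ht0 (by
      have h1 := LinearMap.congr_fun h0 (⟨t, ht⟩ : T)
      exact congrArg Subtype.val h1)⟩
  obtain ⟨E, hE, hEe⟩ := mem_resS.1 he
  have hmul : ∀ F ∈ resS (Submodule.span K (R '' (G : Set Γ))) T,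
      ∀ F' ∈ resS (Submodule.span K (R '' (G : Set Γ))) T,
      F * F' ∈ resS (Submodule.span K (R '' (G : Set Γ))) T := by
    rintro F ⟨A, hA, h1⟩ F' ⟨A', hA', h2⟩
    refine ⟨A * A', span_mul hA hA', fun t => ?_⟩
    rw [Module.End.mul_apply, Module.End.mul_apply, h1, h2]
  have hext : ∀ F ∈ resS (Submodule.span K (R '' (G : Set Γ))) T, ∃ c : K, e * F * e = c • e :=
    fun F hF => extremal _ he he0 hmin F (hmul _ (hmul _ he _ hF) _ he)
  obtain ⟨v, hv⟩ : ∃ v, e v ≠ 0 := by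
    by_contra hcon
    push Not at hcon
    exact he0 (LinearMap.ext hcon)
  have hv0 : ((e v : T) : X) ≠ 0 := fun h0 => hv (Subtype.ext h0)
  have hrange : ∀ u : T, ∃ c : K, E u = c • E v := by
    intro u
    obtain ⟨F, hF, hFu⟩ := irr_span hT h (e v).2 hv0 u.2
    obtain ⟨c, hc⟩ := hext (F.restrict (span_T hT hF)) ⟨F, hF, fun t => rfl⟩
    refine ⟨c, ?_⟩
    have h1 := LinearMap.congr_fun hc v
    have h2 : (F.restrict (span_T hT hF)) (e v) = u := Subtype.ext hFu
    rw [Module.End.mul_apply, Module.End.mul_apply, h2, LinearMap.smul_apply] at h1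
    have h3 := congrArg Subtype.val h1
    rw [Submodule.coe_smul, hEe, hEe] at h3
    exact h3
  intro w hw
  obtain ⟨F, hF, hFw⟩ := irr_span hT h (e v).2 hv0 hw
  have h4 : F (E v) = w := by rw [← hEe, hFw]
  refine Submodule.subset_span ⟨F * E, span_mul hF hE, ?_, ?_⟩
  · have hle : T.map (F * E) ≤ Submodule.span K {w} := by
      rintro _ ⟨u, hu, rfl⟩
      obtain ⟨c, hc⟩ := hrange ⟨u, hu⟩
      change E u = c • E v at hc
      rw [Module.End.mul_apply, Submodule.mem_span_singleton]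
      exact ⟨c, by rw [hc, map_smul, h4]⟩
    refine (Submodule.finrank_mono hle).trans ?_
    by_cases hw0 : w = 0
    · rw [hw0, Submodule.span_zero_singleton, finrank_bot]
      exact Nat.zero_le 1
    · exact (finrank_span_singleton hw0).le
  · exact ⟨v, v.2, by rw [Module.End.mul_apply, h4]⟩

end irr

/-- The rank of a skew operator that exchanges orthogonal subspaces. -/
theorem rank_skew_le [FiniteDimensional K X] {B : X →ₗ[K] X →ₗ[K] K} {T Z : Submodule K X}
    {x : Module.End K X} (h : ∀ z ∈ Z, (∀ t ∈ T, B z (x t) = 0) → x z = 0) :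
    finrank K (Z.map x) ≤ finrank K (T.map x) := by
  obtain ⟨φ, hφ⟩ : ∃ φ : Z →ₗ[K] Module.Dual K (T.map x),
      φ = (LinearMap.lcomp K K (T.map x).subtype).comp (B.comp Z.subtype) := ⟨_, rfl⟩
  have hφ' : ∀ (z : Z) (w : T.map x), φ z w = B z w := fun z w => by rw [hφ]; rfl
  obtain ⟨f, hf⟩ : ∃ f : Z →ₗ[K] X, f = x.comp Z.subtype := ⟨_, rfl⟩
  have hf' : ∀ z : Z, f z = x z := fun z => by rw [hf]; rfl
  have h1 : LinearMap.ker φ ≤ LinearMap.ker f := by
    intro z hz
    rw [LinearMap.mem_ker] at hz ⊢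
    rw [hf']
    refine h z z.2 fun t ht => ?_
    have h2 := hφ' z ⟨x t, t, ht, rfl⟩
    rw [hz, LinearMap.zero_apply] at h2
    exact h2.symm
  have h2 := LinearMap.finrank_range_add_finrank_ker φ
  have h3 := LinearMap.finrank_range_add_finrank_ker f
  have h4 := Submodule.finrank_mono h1
  have h5 : LinearMap.range f = Z.map x := by
    rw [hf, LinearMap.range_comp, Submodule.range_subtype]
  have h6 : finrank K (LinearMap.range φ) ≤ finrank K (T.map x) := by
    refine (Submodule.finrank_le _).trans ?_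
    rw [Subspace.dual_finrank_eq]
  rw [h5] at h3
  omega

/-- **Splittings** give conjugates with linear combinations of small rank. -/
theorem splits_small [CharZero K] [IsAlgClosed K] [FiniteDimensional K X] {U : Submodule K X}
    (hU : SI R U) (h : Splits R χ U) :
    HasSmallCombinations R U (fun _ => True) 1 ∨
    (Pool.Agent.Y126.Notions.IsSymplectic R χ U ∧ ∃ r, IsSmall U r ∧
      HasSmallCombinations R U (fun _ => True) r) ∨
    ∃ B r, IsSymplecticForm R χ U B ∧ IsSmall U r ∧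
      HasSmallCombinations R U (fun y => ∀ u ∈ U, ∀ v ∈ U, B (y u) v + B u (y v) = 0) r := by
  obtain ⟨G, T, Z, ψ, h, s, m, ⟨hTZ, hTZ0, hT0, hZ0⟩, hT, hZ, hirr, ⟨hh, hs, hsψ⟩, hlast⟩ := h
  have hψ : ∀ g ∈ G, ψ g ≠ 0 := by
    intro g hg h0
    obtain ⟨z, hz, hz0⟩ := Submodule.exists_mem_ne_zero_of_ne_bot hZ0
    have h1 := hZ g hg z hz
    rw [h0, zero_smul] at h1
    apply hz0
    have h2 : R g⁻¹ (R g z) = z := Rinv g z
    rw [h1, map_zero] at h2
    exact h2.symm
  have hs0 : s ≠ 0 := by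
    intro h0
    obtain ⟨t, ht, ht0⟩ := Submodule.exists_mem_ne_zero_of_ne_bot hT0
    have h1 := hs t ht
    rw [h0, zero_smul] at h1
    apply ht0
    have h2 : R h⁻¹ (R h t) = t := Rinv h t
    rw [h1, map_zero] at h2
    exact h2.symm
  have hmf : HasMultiplicities R G T m := by
    rcases hirr with ⟨hirr, rfl⟩ | hirr
    · exact multFree hT hirr
    · exact hirr
  have hTU : T ≤ U := by rw [← hTZ]; exact le_sup_left
  have hZU : Z ≤ U := by rw [← hTZ]; exact le_sup_right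
  have hTneU : T ≠ U := by
    rintro rfl
    apply hZ0
    rw [eq_bot_iff, ← hTZ0]
    exact le_inf hZU le_rfl
  have hdec : ∀ u ∈ U, ∃ t ∈ T, ∃ z ∈ Z, t + z = u := by
    intro u hu
    rw [← hTZ] at hu
    exact Submodule.mem_sup.1 hu
  -- the construction
  have key : ∀ y : Module.End K X, (∀ g : Γ, ∀ u ∈ U, (R g * y * R g⁻¹) u ∈ U) →
      (∃ z ∈ T, y z ∉ T) → ∃ x ∈ conjSpan R y, (∃ t ∈ T, x t ≠ 0) ∧ finrank K (T.map x) ≤ m ∧
        (∀ t ∈ T, x t ∈ Z) ∧ (∀ z ∈ Z, x z ∈ T) ∧ (s ≠ -ψ h → ∀ z ∈ Z, x z = 0) := by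
    intro y hyU hyT
    obtain ⟨t₀, ht₀, hyt⟩ := hyT
    have hC : ∀ g : Γ, ∀ x ∈ conjSpan R y, R g * x * R g⁻¹ ∈ conjSpan R y :=
      fun g x hx => conjSpan_conj g hx
    have hyU' : ∀ u ∈ T ⊔ Z, y u ∈ T ⊔ Z := by
      rw [hTZ]
      exact conjSpan_stable hyU (mem_conjSpan y)
    obtain ⟨x₀, hx₀, h1, h2, h3, h4⟩ := exists_off hZ hψ hC (mem_conjSpan y) hyU' ht₀ hyt hh hs
      hsψ hs0
    obtain ⟨E, hE, hE1, v, ⟨t', ht', rfl⟩, hv⟩ : ∃ E ∈ Submodule.span K (R '' (G : Set Γ)),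
        finrank K (T.map E) ≤ m ∧ ∃ v ∈ T.map E, x₀ v ≠ 0 := by
      by_contra hcon
      push Not at hcon
      apply h3
      have h5 := hmf ht₀
      refine Submodule.span_induction (p := fun v _ => x₀ v = 0) ?_ (map_zero _) ?_ ?_ h5
      · rintro v ⟨E, hE, hE1, hv⟩
        exact hcon E hE hE1 v hv
      · intro a b _ _ ha hb
        rw [map_add, ha, hb, add_zero]
      · intro c a _ ha
        rw [map_smul, ha, smul_zero]
    obtain ⟨x, hx, h5, h6, h7, h8⟩ := exists_twist hT hZ hψ hC hx₀ h1 h2 hE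
    refine ⟨x, hx, ⟨t', ht', by rw [h5 t' ht']; exact hv⟩, ?_, ?_, h6, fun h0 => h7 (h4 h0)⟩
    · have h9 : T.map x = (T.map E).map x₀ := by
        apply le_antisymm
        · rintro _ ⟨t, ht, rfl⟩
          exact ⟨E t, ⟨t, ht, rfl⟩, (h5 t ht).symm⟩
        · rintro _ ⟨_, ⟨t, ht, rfl⟩, rfl⟩
          exact ⟨t, ht, h5 t ht⟩
      rw [h9]
      exact (Submodule.finrank_map_le _ _).trans hE1
    · intro t ht
      rw [h5 t ht]
      exact h1 _ (h8 t ht)
  have hne : ∀ {x : Module.End K X}, (∃ t ∈ T, x t ≠ 0) → U.map x ≠ ⊥ := by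
    rintro x ⟨t, ht, hxt⟩
    rw [Submodule.ne_bot_iff]
    exact ⟨x t, ⟨t, hTU ht, rfl⟩, hxt⟩
  have hmap : ∀ x : Module.End K X, U.map x = T.map x ⊔ Z.map x := by
    intro x
    rw [← hTZ, Submodule.map_sup]
  have hzero : s ≠ -ψ h → HasSmallCombinations R U (fun _ => True) m := by
    refine fun hsm => ⟨T, hTU, hT0, hTneU, fun y hy hyT => ?_⟩
    obtain ⟨x, hx, hx0, hxm, -, -, hxZ⟩ := key y (fun g => (hy g).1) hyT
    refine ⟨x, hx, hne hx0, ?_⟩
    have h1 : Z.map x = ⊥ := by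
      rw [eq_bot_iff]
      rintro _ ⟨z, hz, rfl⟩
      rw [hxZ hsm z hz]
      exact Submodule.zero_mem _
    rw [hmap, h1, sup_bot_eq]
    exact hxm
  rcases hlast with ⟨hsmall, B, hB, hBTZ⟩ | ⟨hsm, rfl | ⟨hsym, hsmall⟩⟩
  · refine Or.inr (Or.inr ⟨B, 2 * m, hB, hsmall, T, hTU, hT0, hTneU, fun y hy hyT => ?_⟩)
    obtain ⟨x, hx, hx0, hxm, hxT, hxZ, -⟩ := key y (fun g => (hy g).1) hyT
    obtain ⟨Δ, hΔ, hB0, hBalt, hBΔ⟩ := hB
    have hxskew := conjSpan_skew (fun g => (hy g).2) hx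
    have h1 := rank_skew_le (B := B) (T := T) (Z := Z) (x := x) fun z hz hz0 => by
      refine du_left hU hU.2.1 hΔ hB0 hBΔ _ (hTU (hxZ z hz)) fun v hv => ?_
      obtain ⟨t, ht, ζ, hζ, rfl⟩ := hdec v hv
      rw [map_add, hBTZ _ (hxZ z hz) ζ hζ, add_zero]
      have h1 := hxskew z (hZU hz) t (hTU ht)
      rw [hz0 t ht, add_zero] at h1
      exact h1
    refine ⟨x, hx, hne hx0, ?_⟩
    rw [hmap]
    have h2 := Submodule.finrank_add_le_finrank_add_finrank (T.map x) (Z.map x)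
    omega
  · exact Or.inl (hzero hsm)
  · exact Or.inr (Or.inl ⟨hsym, m, hsmall, hzero hsm⟩)

end

end Pool.Agent.T9h43.MT
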