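import Mathlib
import Pool.Agent.T9h43.MT.Comb2

/-!
# Isolated ratios of eigenvalues, and the conclusion
-/

set_option autoImplicit false
set_option linter.unusedSectionVars false

namespace Pool.Agent.T9h43.MT

open Module Pool.Agent.H204R3.SP Pool.Agent.H204R3.GP Pool.Agent.W522.U Pool.Agent.W529.Ta
open Pool.Agent.W528.Odd Pool.Agent.Y126.OT Pool.Agent.TH118.CR Pool.Agent.Y126.Toric
open Pool.Agent.W528.Tor (AltDual)

noncomputable section

section ratios

variable {K : Type} [Field K] [CharZero K] {X : Type} [AddCommGroup X] [Module K X]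
  [FiniteDimensional K X] {Γ : Type} [Group Γ] {R : Representation K Γ X} {χ : Γ →* K} {U : Submodule K X}

theorem ratios_small {r : ℕ} (h : HasIsolatedRatios R U r) :
    HasSmallCombinations R U (fun _ => True) r := by
  obtain ⟨γ, n, b, a, S, hF, ⟨j₀, hj₀⟩, ⟨i₀, hi₀⟩, hr⟩ := h
  -- the operators on `U`
  have hinv : R γ⁻¹ * R γ = 1 := by rw [← map_mul, inv_mul_cancel, map_one]
  have hinv' : R γ * R γ⁻¹ = 1 := by rw [← map_mul, mul_inv_cancel, map_one]
  have hsum : ∀ u : U, (u : X) = ∑ i, b.repr u i • (b i : X) := by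
    intro u
    conv_lhs => rw [← b.sum_repr u]
    rw [Submodule.coe_sum]
    rfl
  have hFU : ∀ u ∈ U, R γ u ∈ U := by
    intro u hu
    have h1 := hsum ⟨u, hu⟩
    change u = _ at h1
    rw [h1, map_sum]
    refine U.sum_mem fun i _ => ?_
    rw [map_smul, hF]
    exact U.smul_mem _ (U.smul_mem _ (b i).2)
  have hF' : ∀ i, R γ⁻¹ (b i : X) = (a i : K)⁻¹ • (b i : X) := by
    intro i
    have h1 : (b i : X) = (a i : K)⁻¹ • R γ (b i : X) := by
      rw [hF, smul_smul, inv_mul_cancel₀ (a i).ne_zero, one_smul]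
    conv_lhs => rw [h1]
    rw [map_smul]
    congr 1
    exact LinearMap.congr_fun hinv _
  have hFU' : ∀ u ∈ U, R γ⁻¹ u ∈ U := by
    intro u hu
    have h1 := hsum ⟨u, hu⟩
    change u = _ at h1
    rw [h1, map_sum]
    refine U.sum_mem fun i _ => ?_
    rw [map_smul, hF']
    exact U.smul_mem _ (U.smul_mem _ (b i).2)
  obtain ⟨FU, hFUd⟩ : ∃ FU : Module.End K U, FU = (R γ).restrict hFU := ⟨_, rfl⟩
  obtain ⟨FU', hFUd'⟩ : ∃ FU' : Module.End K U, FU' = (R γ⁻¹).restrict hFU' := ⟨_, rfl⟩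
  have hFx : ∀ u : U, ((FU u : U) : X) = R γ u := fun u => by rw [hFUd]; rfl
  have hFx' : ∀ u : U, ((FU' u : U) : X) = R γ⁻¹ u := fun u => by rw [hFUd']; rfl
  have hFF : FU * FU' = 1 := LinearMap.ext fun u => Subtype.ext (by
    rw [Module.End.mul_apply, hFx, hFx']
    exact LinearMap.congr_fun hinv' u)
  have hFF' : FU' * FU = 1 := LinearMap.ext fun u => Subtype.ext (by
    rw [Module.End.mul_apply, hFx', hFx]
    exact LinearMap.congr_fun hinv u)
  have hFb : ∀ i, FU (b i) = (a i : K) • b i := fun i => Subtype.ext (by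
    rw [hFx, hF]
    rfl)
  -- the test subspace
  obtain ⟨Z₀, hZ₀⟩ : ∃ Z₀ : Submodule K U, Z₀ = Submodule.span K (b '' S) := ⟨_, rfl⟩
  have hZmem : ∀ u : U, u ∈ Z₀ ↔ ↑(b.repr u).support ⊆ S := by
    intro u
    rw [hZ₀]
    exact b.mem_span_image
  have hcoe : ∀ u : U, (u : X) ∈ Z₀.map U.subtype ↔ u ∈ Z₀ := by
    intro u
    constructor
    · rintro ⟨v, hv, h1⟩
      have h2 : v = u := Subtype.ext h1
      rw [← h2]
      exact hv
    · exact fun hu => ⟨u, hu, rfl⟩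
  have hbj : ∀ j, b j ∈ Z₀ ↔ j ∈ S := by
    intro j
    rw [hZmem, b.repr_self, Finsupp.support_single_ne_zero _ one_ne_zero, Finset.coe_singleton,
      Set.singleton_subset_iff]
  refine ⟨Z₀.map U.subtype, ?_, ?_, ?_, fun y hy hyZ => ?_⟩
  · rintro _ ⟨v, -, rfl⟩
    exact v.2
  · rw [Submodule.ne_bot_iff]
    refine ⟨b j₀, (hcoe _).2 ((hbj j₀).2 hj₀), fun h0 => b.ne_zero j₀ (Subtype.ext h0)⟩
  · intro h0
    apply hi₀
    rw [← hbj, ← hcoe, h0]
    exact (b i₀).2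
  -- the operator and its combinations on `U`
  have hyst : ∀ u ∈ U, y u ∈ U := conjSpan_stable (fun g => (hy g).1) (mem_conjSpan y)
  obtain ⟨Y, hYd⟩ : ∃ Y : Module.End K U, Y = y.restrict hyst := ⟨_, rfl⟩
  have hYx : ∀ u : U, ((Y u : U) : X) = y u := fun u => by rw [hYd]; rfl
  obtain ⟨j, hj, i, hi, hne⟩ : ∃ j ∈ S, ∃ i, i ∉ S ∧ b.repr (Y (b j)) i ≠ 0 := by
    by_contra hcon
    push Not at hcon
    obtain ⟨z, hz, hyz⟩ := hyZ
    apply hyz
    have h1 : Z₀ ≤ Z₀.comap Y := by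
      conv_lhs => rw [hZ₀]
      rw [Submodule.span_le]
      rintro _ ⟨j, hj, rfl⟩
      rw [SetLike.mem_coe, Submodule.mem_comap, hZmem]
      intro i hi
      by_contra h2
      rw [Finset.mem_coe, Finsupp.mem_support_iff] at hi
      exact hi (hcon j hj i h2)
    obtain ⟨v, hv, rfl⟩ := hz
    rw [Submodule.subtype_apply, ← hYx, hcoe]
    exact h1 hv
  have hJ : ∀ F ∈ resS (conjSpan R y) U, FU * F * FU' ∈ resS (conjSpan R y) U := by
    rintro F ⟨x, hx, h1⟩
    refine ⟨R γ * x * R γ⁻¹, conjSpan_conj γ hx, fun u => ?_⟩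
    rw [Module.End.mul_apply, Module.End.mul_apply, hFx, h1, hFx']
    rfl
  have hYJ : Y ∈ resS (conjSpan R y) U := ⟨y, mem_conjSpan y, hYx⟩
  have key : b.repr (Y (b j)) i ≠ 0 → ∃ z ∈ resS (conjSpan R y) U, ∃ β : Kˣ,
      FU * z * FU' = (β : K) • z ∧ b.repr (z (b j)) i ≠ 0 := by
    refine Pool.Agent.Y126.JP.ind_weights (F := FU) (F' := FU')
      (P := fun z' => b.repr (z' (b j)) i ≠ 0 → ∃ z ∈ resS (conjSpan R y) U, ∃ β : Kˣ,
      FU * z * FU' = (β : K) • z ∧ b.repr (z (b j)) i ≠ 0) hFb hFF hFF' hJ ?_ ?_ ?_ hYJ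
    · intro h0
      exact absurd (by rw [LinearMap.zero_apply, map_zero, Finsupp.zero_apply]) h0
    · intro x₁ x₂ h1 h2 h3
      by_cases h4 : b.repr (x₁ (b j)) i ≠ 0
      · exact h1 h4
      · refine h2 fun h5 => h3 ?_
        push Not at h4
        rw [LinearMap.add_apply, map_add, Finsupp.add_apply, h4, h5, add_zero]
    · intro z hz β hβ h1
      exact ⟨z, hz, β, hβ, h1⟩
  obtain ⟨z, ⟨x, hx, hzx⟩, β, hβ, hz⟩ := key hne
  have hβ' : a i = β * a j := Pool.Agent.Y126.JP.coord_ne hFb hFF' hβ hz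
  have hβr : β = a i / a j := by rw [hβ', mul_div_cancel_right]
  have hrk : finrank K (LinearMap.range z) ≤ Pool.Agent.Y144.MT.coincidences a β :=
    Pool.Agent.Y126.JP.rk_le_coinc hFb hFF' hβ
  have hrk' : finrank K (LinearMap.range z) = finrank K (U.map x) := rk_res hzx
  refine ⟨x, hx, ?_, ?_⟩
  · intro h0
    apply hz
    have h1 : z (b j) = 0 := by
      apply Subtype.ext
      rw [hzx]
      have h2 : x (b j : X) ∈ U.map x := ⟨b j, (b j).2, rfl⟩
      rwa [h0, Submodule.mem_bot] at h2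
    rw [h1, map_zero, Finsupp.zero_apply]
  · rw [← hrk']
    refine hrk.trans ?_
    rw [hβr]
    exact hr i hi j hj

end ratios

end

end Pool.Agent.T9h43.MT
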