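import Mathlib
import Pool.Agent.T9h43.MT.Comb3

/-!
# Elements of rank one from the conjugation action
-/

set_option autoImplicit false
set_option linter.unusedSectionVars false

namespace Pool.Agent.T9h43.MT

open Module Pool.Agent.H204R3.SP Pool.Agent.H204R3.GP Pool.Agent.W522.U Pool.Agent.W529.Ta
open Pool.Agent.W528.Odd Pool.Agent.Y126.OT Pool.Agent.TH118.CR Pool.Agent.Y126.Toric
open Pool.Agent.W528.Tor (AltDual)

noncomputable section

variable {K : Type} [Field K] [CharZero K] [IsAlgClosed K] {X : Type} [AddCommGroup X] [Module K X]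
  [FiniteDimensional K X] {Γ : Type} [Group Γ] {R : Representation K Γ X} {χ : Γ →* K}
  (ω : X →ₗ[K] X →ₗ[K] K) (hnd : ∀ u, (∀ v, ω u v = 0) → u = 0)
  (hωR : ∀ g u v, ω (R g u) (R g v) = χ g * ω u v) (hss : HasProj R) {U : Submodule K X}
  (hU : SI R U)

include hnd hωR hss hU in
theorem exists_comb (hP : WeakHodgeGenerate R χ) {P : Module.End K X → Prop} {r : ℕ}
    (hPl : ∀ x ∈ lieT R χ, P x) (h : HasSmallCombinations R U P r) :
    ∃ x ∈ lieT R χ, U.map x ≠ ⊥ ∧ finrank K (U.map x) ≤ r := by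
  obtain ⟨Z, hZU, hZ0, hZ, h⟩ := h
  obtain ⟨y, hy, -, hyZ⟩ := exists_moving ω hnd hωR hss hU hP hZU hZ0 hZ
  have hconj : ∀ g, R g * y * R g⁻¹ ∈ lieT R χ := fun g => lieT_conj R χ g hy
  obtain ⟨x, hx, hx0, hx1⟩ := h y (fun g => ⟨lieT_stable ω hnd hωR hss hU.2.1 (hconj g),
    hPl _ (hconj g)⟩) hyZ
  exact ⟨x, conjSpan_le hy (fun g x hx => lieT_conj R χ g hx) hx, hx0, hx1⟩

include hnd hωR hss hU in
theorem one_of_comb (hP : WeakHodgeGenerate R χ) (h2 : 2 ≤ finrank K U)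
    (h : HasSmallCombinations R U (fun _ => True) 1) :
    ∃ e ∈ lieT R χ, e * e = 0 ∧ finrank K (U.map e) = 1 := by
  obtain ⟨x, hx, hx0, hx1⟩ := exists_comb ω hnd hωR hss hU hP (fun _ _ => trivial) h
  exact one_of_le_one ω hnd hωR hss hU hP hx hx0 h2 hx1

theorem small_le {r s : ℕ} (hs : s ≤ r) (h : IsSmall U r) : s ≤ 3 ∨
    (¬4 ∣ finrank K U ∧ 4 * s < finrank K U) := by
  rcases h with h | ⟨h1, h2⟩
  · exact Or.inl (hs.trans h)
  · exact Or.inr ⟨h1, by omega⟩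

include hnd hωR hss hU in
theorem one_of_comb_skew (hP : WeakHodgeGenerate R χ) {B : X →ₗ[K] X →ₗ[K] K} {r : ℕ}
    (hB : IsSymplecticForm R χ U B) (hr : IsSmall U r)
    (h : HasSmallCombinations R U (fun y => ∀ u ∈ U, ∀ v ∈ U, B (y u) v + B u (y v) = 0) r) :
    ∃ e ∈ lieT R χ, e * e = 0 ∧ finrank K (U.map e) = 1 := by
  obtain ⟨Δ, hΔ, hB0, hBalt, hBΔ⟩ := id hB
  have halt : AltDual R χ U := ⟨Δ, hΔ, B, hB0, hBalt, hBΔ⟩
  obtain ⟨x, hx, hx0, hx1⟩ := exists_comb ω hnd hωR hss hU hP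
    (fun x hx => lieT_skew ω hnd hωR hss hU.2.1 hΔ B hBΔ hx) h
  exact one_of_small ω hnd hωR hss hU hP halt hx hx0 (small_le hx1 hr)

include hnd hωR hss hU in
theorem one_of_comb_sym (hP : WeakHodgeGenerate R χ) (halt : AltDual R χ U) {r : ℕ}
    (hr : IsSmall U r) (h : HasSmallCombinations R U (fun _ => True) r) :
    ∃ e ∈ lieT R χ, e * e = 0 ∧ finrank K (U.map e) = 1 := by
  obtain ⟨x, hx, hx0, hx1⟩ := exists_comb ω hnd hωR hss hU hP (fun _ _ => trivial) h
  exact one_of_small ω hnd hωR hss hU hP halt hx hx0 (small_le hx1 hr)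

include hnd hωR hss hU in
/-- **The conditions on the conjugation action** give elements of rank one. -/
theorem one_of_conj (hP' : Pool.Agent.Y126.Notions.WeakHodgeGenerate R χ) (h2 : 2 ≤ finrank K U)
    (h : HasConjugates R χ U) :
    ∃ e ∈ lieT R χ, e * e = 0 ∧ finrank K (U.map e) = 1 := by
  have hP : WeakHodgeGenerate R χ := fun P hP => hP' P fun x hx => hP x hx.2 hx.1
  rcases h with h | (h | ⟨halt, r, hr, h⟩) | h | ⟨B, r, hB, hr, h⟩
  · rcases splits_small hU h with h | ⟨halt, r, hr, h⟩ | ⟨B, r, hB, hr, h⟩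
    · exact one_of_comb ω hnd hωR hss hU hP h2 h
    · exact one_of_comb_sym ω hnd hωR hss hU hP halt hr h
    · exact one_of_comb_skew ω hnd hωR hss hU hP hB hr h
  · exact one_of_comb ω hnd hωR hss hU hP h2 (ratios_small h)
  · exact one_of_comb_sym ω hnd hωR hss hU hP halt hr (ratios_small h)
  · exact one_of_comb ω hnd hωR hss hU hP h2 h
  · exact one_of_comb_skew ω hnd hωR hss hU hP hB hr h

end

end Pool.Agent.T9h43.MT
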